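import Pool.Agent.K7.H78.CDM.NF

/-!
# Existence of a normal form
-/

set_option autoImplicit false

namespace Pool.Agent.K7.H9.CDM

open Finset Pool.Agent.K7.H78.CDM
open Pool.Agent.K7.H57.CDM (Cs cls units lexs cases)

/-- the zero of `U` -/
abbrev oo : Bool × Bool := (false, false)

/-- the data of the kernel `K_15` -/
structure Dt (ty : Bool) (M : Fin 4 → Fin 6 → G) (k1 k2 : ℕ) (u1 u2 : Bool × Bool)
    (y : Fin 4 → Bool) : Prop where
  l1 : k1 < 64
  l2 : k2 < 64
  n2 : k2 ≠ 0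
  n1 : k1 ≠ 0
  n12 : k1 ≠ k2
  z1 : Zb M 15 k1 = true
  z2 : Zb M 15 k2 = true
  u0 : u1 ≠ oo
  ut : ty = true → u2 ≠ oo ∧ u1 ≠ u2
  uf : ty = false → u2 = oo
  r1 : ∀ i : Fin 4, DU M (2 ^ (i : ℕ)) k1 = (y i && u1.1, y i && u1.2)
  r2 : ∀ i : Fin 4, DU M (2 ^ (i : ℕ)) k2 = (y i && u2.1, y i && u2.2)
  c2 : ∀ j : Fin 6, k2.testBit j = true → DU M 15 (2 ^ (j : ℕ)) = oo
  c1 : ∀ j : Fin 6, k1.testBit j = true → DU M 15 (2 ^ (j : ℕ)) = oo ∨
    (ty = false ∧ DU M 15 (2 ^ (j : ℕ)) = u1)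
  yn : ty = true → ∃ i, y i = true

lemma gen_row (M : Fin 4 → Fin 6 → G) (i : Fin 4) (k : ℕ) :
    gen M (.inl i) 15 k = DU M (2 ^ (i : ℕ)) k := by
  have h : ∀ i : Fin 4, (15 : ℕ).testBit i = true := by decide
  simp only [gen, h i, if_true]

lemma gen_colm (M : Fin 4 → Fin 6 → G) (j : Fin 6) (k : ℕ) :
    gen M (.inr j) 15 k = if k.testBit j then DU M 15 (2 ^ (j : ℕ)) else oo := rfl

/-- first step: the data exist -/
lemma dat {M : Fin 4 → Fin 6 → G} (hM : HS M) : ∃ ty k1 k2 u1 u2 y, Dt ty M k1 k2 u1 u2 y := by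
  obtain ⟨k1, k2, l1, l2, n1, n2, n12, z1, z2, h⟩ := dich hM (a := 15) (by norm_num) (by norm_num)
  rcases h with ⟨hz, u, hu, hg⟩ | ⟨u1, u2, h1, h2, h12, hr, hc, i0, hi0, hi0'⟩
  · refine ⟨false, k1, k2, u, oo, fun i => decide (DU M (2 ^ (i : ℕ)) k1 = u), l1, l2, n2, n1, n12,
      z1, z2, hu, by simp, by simp, ?_, ?_, ?_, ?_, by simp⟩
    · intro i
      have := hg (.inl i)
      rw [gen_row] at this
      rcases this with e | e
      · rw [e]
        have h' : ¬ (oo = u) := fun e => hu e.symm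
        simp [h']
      · rw [e]
        simp
    · intro i
      have := hz (.inl i)
      rw [gen_row] at this
      rw [this]
      simp
    · intro j hj
      have := hz (.inr j)
      rw [gen_colm, if_pos hj] at this
      exact this
    · intro j hj
      have := hg (.inr j)
      rw [gen_colm, if_pos hj] at this
      rcases this with e | e
      · exact Or.inl e
      · exact Or.inr ⟨rfl, e⟩
  · refine ⟨true, k1, k2, u1, u2, fun i => decide (DU M (2 ^ (i : ℕ)) k1 = u1), l1, l2, n2, n1, n12,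
      z1, z2, h1, fun _ => ⟨h2, h12⟩, by simp, ?_, ?_, ?_, ?_, ?_⟩
    · intro i
      have := hr i
      rw [gen_row, gen_row] at this
      rcases this with ⟨e, _⟩ | ⟨e, _⟩
      · rw [e]
        have h' : ¬ (oo = u1) := fun e => h1 e.symm
        simp [h']
      · rw [e]
        simp
    · intro i
      have := hr i
      rw [gen_row, gen_row] at this
      rcases this with ⟨e, e'⟩ | ⟨e, e'⟩
      · rw [e, e']
        have h' : ¬ (oo = u1) := fun e => h1 e.symm
        simp [h']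
      · rw [e, e']
        simp
    · intro j hj
      have := (hc j).2
      rw [gen_colm, if_pos hj] at this
      exact this
    · intro j hj
      have := (hc j).1
      rw [gen_colm, if_pos hj] at this
      exact Or.inl this
    · intro _
      rw [gen_row] at hi0
      exact ⟨i0, by simp [hi0]⟩

/-- sum in `U` -/
abbrev ux (u v : Bool × Bool) : Bool × Bool := (xor u.1 v.1, xor u.2 v.2)

lemma ux_ne : ∀ u v : Bool × Bool, u ≠ v → ux u v ≠ oo := by decide
lemma ux_ne' : ∀ u v : Bool × Bool, u ≠ oo → ux u v ≠ v := by decide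
lemma ux_oo : ∀ u : Bool × Bool, ux u oo = u := by decide
lemma ux_ne'' : ∀ u v : Bool × Bool, v ≠ oo → u ≠ ux u v := by decide

lemma ux_and : ∀ (y : Bool) (u v : Bool × Bool),
    (xor (y && u.1) (y && v.1), xor (y && u.2) (y && v.2)) =
      ((y && (ux u v).1, y && (ux u v).2) : Bool × Bool) := by decide

lemma xor_ne_left {a b : ℕ} (h : b ≠ 0) : a ≠ a ^^^ b := by
  intro e
  apply h
  have := congrArg (a ^^^ ·) e
  simp only [← Nat.xor_assoc, Nat.xor_self, Nat.zero_xor] at this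
  exact this.symm

lemma xor_ne_right {a b : ℕ} (h : a ≠ 0) : a ^^^ b ≠ b := by
  intro e
  rw [Nat.xor_comm] at e
  exact xor_ne_left h e.symm

lemma xor_ne_zero' {a b : ℕ} (h : a ≠ b) : a ^^^ b ≠ 0 := fun e => h (Nat.xor_eq_zero_iff.1 e)

lemma xor_lt {a b : ℕ} (ha : a < 64) (hb : b < 64) : a ^^^ b < 64 := by
  have := Nat.xor_lt_two_pow (n := 6) (by simpa using ha) (by simpa using hb)
  simpa using this

/-- move A -/
lemma Dt.moveA {ty : Bool} {M : Fin 4 → Fin 6 → G} {k1 k2 : ℕ} {u1 u2 : Bool × Bool}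
    {y : Fin 4 → Bool} (h : Dt ty M k1 k2 u1 u2 y) : Dt ty M (k1 ^^^ k2) k2 (ux u1 u2) u2 y := by
  refine ⟨xor_lt h.l1 h.l2, h.l2, h.n2, xor_ne_zero' h.n12, xor_ne_right h.n1,
    Zb_xor_right h.z1 h.z2, h.z2, ?_, fun ht => ⟨(h.ut ht).1, ux_ne' _ _ h.u0⟩, h.uf, ?_, h.r2,
    h.c2, ?_, h.yn⟩
  · cases ht : ty with
    | true => exact ux_ne _ _ (h.ut ht).2
    | false => rw [h.uf ht, ux_oo]; exact h.u0
  · intro i
    rw [DU_xor_right, h.r1, h.r2]
    exact ux_and _ _ _
  · intro j hj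
    by_cases h2 : k2.testBit j = true
    · exact Or.inl (h.c2 j h2)
    · have h1 : k1.testBit j = true := by
        rw [Nat.testBit_xor] at hj
        cases h1 : k1.testBit j with
        | true => rfl
        | false =>
          rw [h1] at hj
          simp [h2] at hj
      rcases h.c1 j h1 with e | ⟨e1, e2⟩
      · exact Or.inl e
      · refine Or.inr ⟨e1, ?_⟩
        rw [e2, h.uf e1, ux_oo]

/-- move B -/
lemma Dt.moveB {M : Fin 4 → Fin 6 → G} {k1 k2 : ℕ} {u1 u2 : Bool × Bool}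
    {y : Fin 4 → Bool} (h : Dt true M k1 k2 u1 u2 y) :
    Dt true M k1 (k1 ^^^ k2) u1 (ux u1 u2) y := by
  have hc : ∀ j : Fin 6, k1.testBit j = true → DU M 15 (2 ^ (j : ℕ)) = oo := by
    intro j hj
    rcases h.c1 j hj with e | ⟨e, _⟩
    · exact e
    · exact absurd e (by decide)
  refine ⟨h.l1, xor_lt h.l1 h.l2, xor_ne_zero' h.n12, h.n1, xor_ne_left h.n2, h.z1,
    Zb_xor_right h.z1 h.z2, h.u0, fun _ => ⟨ux_ne _ _ (h.ut rfl).2, ux_ne'' _ _ (h.ut rfl).1⟩,
    by simp, h.r1, ?_, ?_, h.c1, h.yn⟩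
  · intro i
    rw [DU_xor_right, h.r1, h.r2]
    exact ux_and _ _ _
  · intro j hj
    by_cases h2 : k2.testBit j = true
    · exact h.c2 j h2
    · have h1 : k1.testBit j = true := by
        rw [Nat.testBit_xor] at hj
        cases h1 : k1.testBit j with
        | true => rfl
        | false =>
          rw [h1] at hj
          simp [h2] at hj
      exact hc j h1

/-- class of a column -/
def cf (k1 k2 : ℕ) (j : Fin 6) : ℕ :=
  if k2.testBit j then (if k1.testBit j then 1 else 2) else (if k1.testBit j then 3 else 0)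

/-- size of a class -/
def nn (k1 k2 t : ℕ) : ℕ := (univ.filter fun j : Fin 6 => cf k1 k2 j = t).card

lemma nnA (k1 k2 : ℕ) : nn (k1 ^^^ k2) k2 1 = nn k1 k2 2 ∧ nn (k1 ^^^ k2) k2 2 = nn k1 k2 1 := by
  unfold nn
  constructor <;>
  · congr 1
    refine filter_congr fun j _ => ?_
    unfold cf
    rw [Nat.testBit_xor]
    cases k1.testBit j <;> cases k2.testBit j <;> simp

lemma nnB (k1 k2 : ℕ) : nn k1 (k1 ^^^ k2) 1 = nn k1 k2 3 ∧ nn k1 (k1 ^^^ k2) 2 = nn k1 k2 2 := by
  unfold nn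
  constructor <;>
  · congr 1
    refine filter_congr fun j _ => ?_
    unfold cf
    rw [Nat.testBit_xor]
    cases k1.testBit j <;> cases k2.testBit j <;> simp

/-- second step: sorted class sizes -/
lemma sorted {M : Fin 4 → Fin 6 → G} (hM : HS M) : ∃ ty k1 k2 u1 u2 y, Dt ty M k1 k2 u1 u2 y ∧
    nn k1 k2 2 ≤ nn k1 k2 1 ∧ (ty = true → nn k1 k2 1 ≤ nn k1 k2 3) := by
  classical
  obtain ⟨ty, k1, k2, u1, u2, y, h⟩ := dat hM
  have hex : ∃ w : ℕ, ∃ k1 k2 u1 u2, Dt ty M k1 k2 u1 u2 y ∧ w = 2 * nn k1 k2 2 + nn k1 k2 1 :=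
    ⟨_, k1, k2, u1, u2, h, rfl⟩
  obtain ⟨k1, k2, u1, u2, h, hw⟩ := Nat.find_spec hex
  refine ⟨ty, k1, k2, u1, u2, y, h, ?_, ?_⟩
  · have := Nat.find_min' hex ⟨_, _, _, _, h.moveA, rfl⟩
    rw [hw, (nnA k1 k2).1, (nnA k1 k2).2] at this
    omega
  · intro ht
    subst ht
    have := Nat.find_min' hex ⟨_, _, _, _, h.moveB, rfl⟩
    rw [hw, (nnB k1 k2).1, (nnB k1 k2).2] at this
    omega

/-- parity of the rows -/
lemma Dt.par {ty : Bool} {M : Fin 4 → Fin 6 → G} {k1 k2 : ℕ} {u1 u2 : Bool × Bool}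
    {y : Fin 4 → Bool} (h : Dt ty M k1 k2 u1 u2 y) : (y 0 ^^ y 1 ^^ y 2 ^^ y 3) = false := by
  have h0 := Zb_D h.z1 0
  have h1 := Zb_D h.z1 1
  have e : (15 : ℕ) = 1 ^^^ (2 ^^^ (4 ^^^ 8)) := by decide
  rw [e, bb_xor_left, bb_xor_left, bb_xor_left] at h0 h1
  have r0 := h.r1 0
  have r1 := h.r1 1
  have r2 := h.r1 2
  have r3 := h.r1 3
  simp only [DU, Prod.mk.injEq] at r0 r1 r2 r3
  have a0 : (2 : ℕ) ^ ((0 : Fin 4) : ℕ) = 1 := by decide
  have a1 : (2 : ℕ) ^ ((1 : Fin 4) : ℕ) = 2 := by decide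
  have a2 : (2 : ℕ) ^ ((2 : Fin 4) : ℕ) = 4 := by decide
  have a3 : (2 : ℕ) ^ ((3 : Fin 4) : ℕ) = 8 := by decide
  rw [a0] at r0
  rw [a1] at r1
  rw [a2] at r2
  rw [a3] at r3
  rw [r0.1, r1.1, r2.1, r3.1] at h0
  rw [r0.2, r1.2, r2.2, r3.2] at h1
  have hu := h.u0
  revert h0 h1 hu
  generalize y 0 = p
  generalize y 1 = q
  generalize y 2 = r
  generalize y 3 = s
  clear h r0 r1 r2 r3 a0 a1 a2 a3 e
  revert u1 p q r s
  decide

lemma act_and : ∀ (n : Fin 6) (y : Bool) (u : Bool × Bool),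
    act n (y && u.1, y && u.2) = (y && (act n u).1, y && (act n u).2) := by decide

lemma act_inj : ∀ (n : Fin 6) (u v : Bool × Bool), act n u = act n v → u = v := by decide

/-- transformation by an automorphism -/
lemma Dt.act {ty : Bool} {M M' : Fin 4 → Fin 6 → G} {k1 k2 : ℕ} {u1 u2 : Bool × Bool}
    {y : Fin 4 → Bool} (h : Dt ty M k1 k2 u1 u2 y) (n : Fin 6)
    (hD : ∀ a k, DU M' a k = act n (DU M a k)) (hZ : ∀ a k, Zb M' a k = Zb M a k) :
    Dt ty M' k1 k2 (act n u1) (act n u2) y := by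
  refine ⟨h.l1, h.l2, h.n2, h.n1, h.n12, by rw [hZ, h.z1], by rw [hZ, h.z2], ?_, ?_, ?_, ?_, ?_,
    ?_, ?_, h.yn⟩
  · intro e
    exact h.u0 (act_inj n _ _ (by rw [e, act_zero]))
  · intro ht
    refine ⟨fun e => (h.ut ht).1 (act_inj n _ _ (by rw [e, act_zero])), fun e => (h.ut ht).2
      (act_inj n _ _ e)⟩
  · intro ht
    rw [h.uf ht, act_zero]
  · intro i
    rw [hD, h.r1, act_and]
  · intro i
    rw [hD, h.r2, act_and]
  · intro j hj
    rw [hD, h.c2 j hj, act_zero]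
  · intro j hj
    rcases h.c1 j hj with e | ⟨e1, e2⟩
    · left
      rw [hD, e, act_zero]
    · right
      exact ⟨e1, by rw [hD, e2]⟩

/-- third step: normalised values in `U` -/
lemma normU {M : Fin 4 → Fin 6 → G} (hM : HS M) : ∃ ty M' k1 k2 y, HS M' ∧
    Dt ty M' k1 k2 (true, false) (false, ty) y ∧
    nn k1 k2 2 ≤ nn k1 k2 1 ∧ (ty = true → nn k1 k2 1 ≤ nn k1 k2 3) := by
  obtain ⟨ty, k1, k2, u1, u2, y, h, s1, s2⟩ := sorted hM
  have hn : ∃ n, Pool.Agent.K7.H78.CDM.act n u1 = (true, false) ∧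
      Pool.Agent.K7.H78.CDM.act n u2 = (false, ty) := by
    cases ht : ty with
    | true => exact act_two u1 u2 h.u0 (h.ut ht).1 (h.ut ht).2
    | false =>
      obtain ⟨n, hn⟩ := act_one u1 h.u0
      exact ⟨n, hn, by rw [h.uf ht, act_zero]⟩
  obtain ⟨n, e1, e2⟩ := hn
  obtain ⟨M', hM', hD, hZ⟩ := act_exists hM n
  have := h.act n hD hZ
  rw [e1, e2] at this
  exact ⟨ty, M', k1, k2, y, hM', this, s1, s2⟩

/-- two columns with nonzero sums -/
lemma two_cols {M : Fin 4 → Fin 6 → G} (hM : HS M) : ∃ j j' : Fin 6, j ≠ j' ∧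
    DU M 15 (2 ^ (j : ℕ)) ≠ oo ∧ DU M 15 (2 ^ (j' : ℕ)) ≠ oo := by
  obtain ⟨j0, h0⟩ := onto_mask hM (a := 15) (by norm_num) (by norm_num) 0
  obtain ⟨j1, h1⟩ := onto_mask hM (a := 15) (by norm_num) (by norm_num) 1
  obtain ⟨j2, h2⟩ := onto_mask hM (a := 15) (by norm_num) (by norm_num) 2
  have hne : ∀ (f : Fin 3) (u : Bool × Bool), fn f u = true → u ≠ oo := by decide
  by_cases h01 : j0 = j1
  · subst h01
    refine ⟨j0, j2, ?_, hne _ _ h0, hne _ _ h2⟩
    rintro rfl
    revert h0 h1 h2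
    generalize DU M 15 (2 ^ (j0 : ℕ)) = u
    revert u
    decide
  · exact ⟨j0, j1, h01, hne _ _ h0, hne _ _ h1⟩

lemma card_le {M : Fin 4 → Fin 6 → G} (hM : HS M) (s : Finset (Fin 6))
    (hs : ∀ j ∈ s, DU M 15 (2 ^ (j : ℕ)) = oo) : s.card ≤ 4 := by
  obtain ⟨j, j', hj, h, h'⟩ := two_cols hM
  have h1 : s ⊆ ({j, j'} : Finset (Fin 6))ᶜ := by
    intro x hx
    rw [mem_compl, mem_insert, mem_singleton]
    rintro (rfl | rfl)
    · exact h (hs _ hx)
    · exact h' (hs _ hx)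
  have h2 := Finset.card_le_card h1
  rw [card_compl, card_pair hj] at h2
  simpa using h2

lemma nn_sum (k1 k2 : ℕ) : nn k1 k2 0 + nn k1 k2 1 + nn k1 k2 2 + nn k1 k2 3 = 6 := by
  have h : ∀ j : Fin 6, cf k1 k2 j ∈ range 4 := by
    intro j
    rw [mem_range]
    unfold cf
    split_ifs <;> norm_num
  have := Finset.card_eq_sum_card_fiberwise (s := (univ : Finset (Fin 6))) (t := range 4)
    (f := cf k1 k2) (fun j _ => h j)
  rw [sum_range_succ, sum_range_succ, sum_range_succ, sum_range_succ, sum_range_zero] at this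
  simp only [card_univ, Fintype.card_fin] at this
  unfold nn
  omega

set_option maxRecDepth 20000 in
lemma cls_card : ∀ b g a : Fin 7, (b : ℕ) + g + a ≤ 6 → ∀ t : Fin 4,
    (univ.filter fun j : Fin 6 => cls ⟨true, b, g, a, 0⟩ j = (t : ℕ)).card =
      if (t : ℕ) = 1 then (b : ℕ) else if (t : ℕ) = 2 then (g : ℕ) else if (t : ℕ) = 3 then (a : ℕ)
        else 6 - (b + g + a) := by
  decide +kernel

set_option maxRecDepth 20000 in
lemma k_bits : ∀ b g a : Fin 7, (b : ℕ) + g + a ≤ 6 → ∀ j : Fin 6,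
    ((Pool.Agent.K7.H57.CDM.k1 ⟨true, b, g, a, 0⟩).testBit j =
      decide (cls ⟨true, b, g, a, 0⟩ j = 1 ∨ cls ⟨true, b, g, a, 0⟩ j = 3)) ∧
    ((Pool.Agent.K7.H57.CDM.k2 ⟨true, b, g, a, 0⟩).testBit j =
      decide (cls ⟨true, b, g, a, 0⟩ j = 1 ∨ cls ⟨true, b, g, a, 0⟩ j = 2)) := by
  decide +kernel

/-- functions with the same fibre sizes differ by a permutation -/
lemma exists_perm (f g : Fin 6 → ℕ)
    (h : ∀ t, (univ.filter fun j => f j = t).card = (univ.filter fun j => g j = t).card) :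
    ∃ σ : Equiv.Perm (Fin 6), ∀ j, f (σ j) = g j := by
  have e : ∀ t, Nonempty ({j // g j = t} ≃ {j // f j = t}) := by
    intro t
    refine Fintype.card_eq.1 ?_
    rw [Fintype.card_subtype, Fintype.card_subtype, h]
  let E : (Σ t, {j // g j = t}) ≃ (Σ t, {j // f j = t}) :=
    Equiv.sigmaCongrRight fun t => (e t).some
  refine ⟨(Equiv.sigmaFiberEquiv g).symm.trans (E.trans (Equiv.sigmaFiberEquiv f)), fun j => ?_⟩
  simp only [Equiv.trans_apply]
  have h1 : ((Equiv.sigmaFiberEquiv g).symm j) = ⟨g j, ⟨j, rfl⟩⟩ := rfl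
  rw [h1]
  show f ((Equiv.sigmaFiberEquiv f) ⟨g j, (e (g j)).some ⟨j, rfl⟩⟩) = g j
  exact ((e (g j)).some ⟨j, rfl⟩).2

lemma row_perm : ∀ y : Fin 4 → Bool, (y 0 ^^ y 1 ^^ y 2 ^^ y 3) = false →
    ∃ π : Equiv.Perm (Fin 4), ∃ m : Fin 16, (m = 15 ∨ m = 3 ∨ m = 0) ∧
      (∀ i : Fin 4, y (π i) = (m : ℕ).testBit i) ∧ (m = 0 → ∀ i, y i = false) := by
  decide +kernel

lemma eq_of_bits {k k' : ℕ} (hk : k < 64) (hk' : k' < 64)
    (h : ∀ j : Fin 6, k.testBit j = k'.testBit j) : k = k' := by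
  refine vec_inj (n := 6) (by simpa using hk) (by simpa using hk') ?_
  funext j
  simp only [vec, h j]

lemma mem_true : ∀ b g a : Fin 7, (g : ℕ) ≤ b → (b : ℕ) ≤ a → (b : ℕ) + g + a ≤ 4 → 1 ≤ (b : ℕ) →
    ∀ m : Fin 16, (m = 15 ∨ m = 3) → (⟨true, b, g, a, m⟩ : Cs) ∈ cases := by
  decide +kernel

lemma mem_false' : ∀ b g a : Fin 7, ((g : ℕ) ≤ b ∧ 1 ≤ (b : ℕ) ∧ (b : ℕ) + g ≤ 4 ∧
    (b : ℕ) + g + a ≤ 6 ∧ ¬ ((g : ℕ) = 0 ∧ (a : ℕ) = 0)) →
    ((⟨false, b, g, a, 15⟩ : Cs) ∈ cases ∧ (⟨false, b, g, a, 3⟩ : Cs) ∈ cases ∧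
      (⟨false, b, g, a, 0⟩ : Cs) ∈ cases) := by
  decide +kernel

lemma mem_false (b g a : Fin 7) (h1 : (g : ℕ) ≤ b) (h2 : 1 ≤ (b : ℕ)) (h3 : (b : ℕ) + g ≤ 4)
    (h4 : (b : ℕ) + g + a ≤ 6) (h5 : ¬ ((g : ℕ) = 0 ∧ (a : ℕ) = 0))
    (m : Fin 16) (hm : m = 15 ∨ m = 3 ∨ m = 0) : (⟨false, b, g, a, m⟩ : Cs) ∈ cases := by
  have h := mem_false' b g a ⟨h1, h2, h3, h4, h5⟩
  rcases hm with rfl | rfl | rfl
  · exact h.1
  · exact h.2.1
  · exact h.2.2

theorem stNF : StNF := by
  rintro ⟨M, hM⟩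
  obtain ⟨ty, M1, k1, k2, y, hM1, h, s1, s2⟩ := normU hM
  obtain ⟨π, m, hm, hy, hm0⟩ := row_perm y h.par
  have hsum := nn_sum k1 k2
  obtain ⟨b, hb⟩ : ∃ b : Fin 7, (b : ℕ) = nn k1 k2 1 := ⟨⟨nn k1 k2 1, by omega⟩, rfl⟩
  obtain ⟨g, hg⟩ : ∃ g : Fin 7, (g : ℕ) = nn k1 k2 2 := ⟨⟨nn k1 k2 2, by omega⟩, rfl⟩
  obtain ⟨a, ha⟩ : ∃ a : Fin 7, (a : ℕ) = nn k1 k2 3 := ⟨⟨nn k1 k2 3, by omega⟩, rfl⟩
  have hbga : (b : ℕ) + g + a ≤ 6 := by omega
  -- the columns
  have hcard : ∀ t, (univ.filter fun j => cf k1 k2 j = t).card =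
      (univ.filter fun j : Fin 6 => cls ⟨ty, b, g, a, m⟩ j = t).card := by
    intro t
    have hcls : ∀ j : ℕ, cls ⟨ty, b, g, a, m⟩ j = cls ⟨true, b, g, a, 0⟩ j := fun j => rfl
    simp only [hcls]
    by_cases ht : t < 4
    · rw [cls_card b g a hbga ⟨t, ht⟩]
      show nn k1 k2 t = _
      simp only
      have h4 : t = 0 ∨ t = 1 ∨ t = 2 ∨ t = 3 := by omega
      rcases h4 with rfl | rfl | rfl | rfl
      · simp only [show ¬ ((0 : ℕ) = 1) by omega, show ¬ ((0 : ℕ) = 2) by omega,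
          show ¬ ((0 : ℕ) = 3) by omega, if_false]
        omega
      · simp only [if_true]; omega
      · simp only [show ¬ ((2 : ℕ) = 1) by omega, if_true, if_false]; omega
      · simp only [show ¬ ((3 : ℕ) = 1) by omega, show ¬ ((3 : ℕ) = 2) by omega, if_true,
          if_false]
        omega
    · rw [Finset.card_eq_zero.2, Finset.card_eq_zero.2]
      · rw [Finset.filter_eq_empty_iff]
        intro j _ hj
        unfold cls at hj
        split_ifs at hj <;> omega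
      · rw [Finset.filter_eq_empty_iff]
        intro j _ hj
        unfold cf at hj
        split_ifs at hj <;> omega
  obtain ⟨σ, hσ⟩ := exists_perm (cf k1 k2) (fun j : Fin 6 => cls ⟨ty, b, g, a, m⟩ j) hcard
  have hσ' : ∀ j, cf k1 k2 (σ j) = cls ⟨true, b, g, a, 0⟩ j := hσ
  have hb1 : ∀ j : Fin 6, k1.testBit (σ j) =
      (Pool.Agent.K7.H57.CDM.k1 ⟨ty, b, g, a, m⟩).testBit j := by
    intro j
    have e : Pool.Agent.K7.H57.CDM.k1 ⟨ty, b, g, a, m⟩ =
      Pool.Agent.K7.H57.CDM.k1 ⟨true, b, g, a, 0⟩ := rfl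
    rw [e, (k_bits b g a hbga j).1, ← hσ' j]
    unfold cf
    cases k1.testBit (σ j) <;> cases k2.testBit (σ j) <;> simp
  have hb2 : ∀ j : Fin 6, k2.testBit (σ j) =
      (Pool.Agent.K7.H57.CDM.k2 ⟨ty, b, g, a, m⟩).testBit j := by
    intro j
    have e : Pool.Agent.K7.H57.CDM.k2 ⟨ty, b, g, a, m⟩ =
      Pool.Agent.K7.H57.CDM.k2 ⟨true, b, g, a, 0⟩ := rfl
    rw [e, (k_bits b g a hbga j).2, ← hσ' j]
    unfold cf
    cases k1.testBit (σ j) <;> cases k2.testBit (σ j) <;> simp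
  -- the values
  have h15 : ∀ i : Fin 4, (15 : ℕ).testBit (π i) = (15 : ℕ).testBit i := by
    have h : ∀ i : Fin 4, (15 : ℕ).testBit i = true := by decide
    intro i
    rw [h, h]
  have hpow : ∀ i i' : Fin 4, (2 ^ ((π i : Fin 4) : ℕ)).testBit (π i') =
      (2 ^ (i : ℕ)).testBit i' := by
    intro i i'
    rw [Nat.testBit_two_pow, Nat.testBit_two_pow]
    by_cases e : i = i'
    · subst e; simp
    · have e1 : ¬ ((π i : ℕ) = (π i' : ℕ)) := fun h => e (π.injective (Fin.ext h))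
      have e2 : ¬ ((i : ℕ) = (i' : ℕ)) := fun h => e (Fin.ext h)
      simp [e1, e2]
  have hpow' : ∀ i i' : Fin 6, (2 ^ ((σ i : Fin 6) : ℕ)).testBit (σ i') =
      (2 ^ (i : ℕ)).testBit i' := by
    intro i i'
    rw [Nat.testBit_two_pow, Nat.testBit_two_pow]
    by_cases e : i = i'
    · subst e; simp
    · have e1 : ¬ ((σ i : ℕ) = (σ i' : ℕ)) := fun h => e (σ.injective (Fin.ext h))
      have e2 : ¬ ((i : ℕ) = (i' : ℕ)) := fun h => e (Fin.ext h)
      simp [e1, e2]
  have v1 : ∀ (t : Fin 4) (i : Fin 4), bb (rowP π (colP σ M1)) t (2 ^ (i : ℕ))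
      (Pool.Agent.K7.H57.CDM.k1 ⟨ty, b, g, a, m⟩) = bb M1 t (2 ^ ((π i : Fin 4) : ℕ)) k1 := by
    intro t i
    rw [bb_rowP t π _ (hpow i), bb_colP t σ _ hb1]
  have v2 : ∀ (t : Fin 4) (i : Fin 4), bb (rowP π (colP σ M1)) t (2 ^ (i : ℕ))
      (Pool.Agent.K7.H57.CDM.k2 ⟨ty, b, g, a, m⟩) = bb M1 t (2 ^ ((π i : Fin 4) : ℕ)) k2 := by
    intro t i
    rw [bb_rowP t π _ (hpow i), bb_colP t σ _ hb2]
  have v3 : ∀ (t : Fin 4) (j : Fin 6), bb (rowP π (colP σ M1)) t 15 (2 ^ (j : ℕ)) =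
      bb M1 t 15 (2 ^ ((σ j : Fin 6) : ℕ)) := by
    intro t j
    rw [bb_rowP t π _ h15, bb_colP t σ _ (hpow' j)]
  have r1 : ∀ i : Fin 4, bb M1 0 (2 ^ ((π i : Fin 4) : ℕ)) k1 = (m : ℕ).testBit i ∧
      bb M1 1 (2 ^ ((π i : Fin 4) : ℕ)) k1 = false := by
    intro i
    have := h.r1 (π i)
    simp only [DU, Prod.mk.injEq] at this
    rw [this.1, this.2, ← hy i]
    simp
  have r2 : ∀ i : Fin 4, bb M1 0 (2 ^ ((π i : Fin 4) : ℕ)) k2 = false ∧
      bb M1 1 (2 ^ ((π i : Fin 4) : ℕ)) k2 = (ty && (m : ℕ).testBit i) := by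
    intro i
    have := h.r2 (π i)
    simp only [DU, Prod.mk.injEq] at this
    rw [this.1, this.2, ← hy i]
    simp [Bool.and_comm]
  refine ⟨⟨ty, b, g, a, m⟩, ?_, rowP π (colP σ M1), HS_row (HS_col hM1 σ) π, ?_, ?_, ?_, ?_, ?_,
    ?_, ?_, ?_⟩
  · -- membership
    have hb0 : 1 ≤ (b : ℕ) := by
      by_contra hc
      have hb0 : nn k1 k2 1 = 0 := by omega
      have hg0 : nn k1 k2 2 = 0 := by omega
      apply h.n2
      refine eq_of_bits h.l2 (by norm_num) fun j => ?_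
      rw [Nat.zero_testBit]
      unfold nn at hb0 hg0
      rw [Finset.card_eq_zero, Finset.filter_eq_empty_iff] at hb0 hg0
      have e1 := hb0 (mem_univ j)
      have e2 := hg0 (mem_univ j)
      unfold cf at e1 e2
      cases h2 : k2.testBit j with
      | false => rfl
      | true =>
        exfalso
        cases h1 : k1.testBit j with
        | true => exact e1 (by simp [h1, h2])
        | false => exact e2 (by simp [h1, h2])
    have hdis : ∀ t t' : ℕ, t ≠ t' → Disjoint (univ.filter fun j => cf k1 k2 j = t)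
        (univ.filter fun j => cf k1 k2 j = t') := by
      intro t t' htt
      rw [Finset.disjoint_filter]
      intro j _ h1 h2
      exact htt (h1.symm.trans h2)
    cases ht : ty with
    | true =>
      subst ht
      refine mem_true b g a (by omega) (by have := s2 rfl; omega) ?_ hb0 m ?_
      · have hc := card_le hM1 ((univ.filter fun j => cf k1 k2 j = 1) ∪
          ((univ.filter fun j => cf k1 k2 j = 2) ∪ (univ.filter fun j => cf k1 k2 j = 3))) ?_
        · rw [Finset.card_union_of_disjoint, Finset.card_union_of_disjoint (hdis 2 3 (by omega))]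
            at hc
          · change nn k1 k2 1 + (nn k1 k2 2 + nn k1 k2 3) ≤ 4 at hc
            omega
          · rw [Finset.disjoint_union_right]
            exact ⟨hdis 1 2 (by omega), hdis 1 3 (by omega)⟩
        · intro j hj
          simp only [mem_union, mem_filter, mem_univ, true_and] at hj
          cases h2 : k2.testBit j with
          | true => exact h.c2 j h2
          | false =>
            cases h1 : k1.testBit j with
            | true =>
              rcases h.c1 j h1 with e | ⟨e, _⟩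
              · exact e
              · exact absurd e (by decide)
            | false =>
              exfalso
              unfold cf at hj
              simp [h1, h2] at hj
      · rcases hm with e | e | e
        · exact Or.inl e
        · exact Or.inr e
        · obtain ⟨i, hi⟩ := h.yn rfl
          rw [hm0 e i] at hi
          exact absurd hi (by decide)
    | false =>
      subst ht
      refine mem_false b g a (by omega) hb0 ?_ hbga ?_ m hm
      · have hc := card_le hM1 ((univ.filter fun j => cf k1 k2 j = 1) ∪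
          (univ.filter fun j => cf k1 k2 j = 2)) ?_
        · rw [Finset.card_union_of_disjoint (hdis 1 2 (by omega))] at hc
          change nn k1 k2 1 + nn k1 k2 2 ≤ 4 at hc
          omega
        · intro j hj
          simp only [mem_union, mem_filter, mem_univ, true_and] at hj
          refine h.c2 j ?_
          unfold cf at hj
          cases h2 : k2.testBit j with
          | true => rfl
          | false =>
            cases h1 : k1.testBit j <;> simp [h1, h2] at hj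
      · rintro ⟨e1, e2⟩
        have hg0 : nn k1 k2 2 = 0 := by omega
        have ha0 : nn k1 k2 3 = 0 := by omega
        apply h.n12
        refine eq_of_bits h.l1 h.l2 fun j => ?_
        unfold nn at ha0 hg0
        rw [Finset.card_eq_zero, Finset.filter_eq_empty_iff] at ha0 hg0
        have e1 := ha0 (mem_univ j)
        have e2 := hg0 (mem_univ j)
        unfold cf at e1 e2
        cases h2 : k2.testBit j <;> cases h1 : k1.testBit j
        · rfl
        · exact absurd (by simp [h1, h2]) e1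
        · exact absurd (by simp [h1, h2]) e2
        · rfl
  · rw [Zb_rowP π _ h15, Zb_colP σ _ hb1]
    exact h.z1
  · rw [Zb_rowP π _ h15, Zb_colP σ _ hb2]
    exact h.z2
  · intro i hi
    have := v1 0 ⟨i, hi⟩
    rw [(r1 ⟨i, hi⟩).1] at this
    exact this
  · intro i hi
    have := v1 1 ⟨i, hi⟩
    rw [(r1 ⟨i, hi⟩).2] at this
    exact this
  · intro i hi
    have := v2 0 ⟨i, hi⟩
    rw [(r2 ⟨i, hi⟩).1] at this
    exact this
  · intro i hi
    have := v2 1 ⟨i, hi⟩
    rw [(r2 ⟨i, hi⟩).2] at this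
    exact this
  · intro j hj hc
    have e := v3 1 ⟨j, hj⟩
    have hcj : cf k1 k2 (σ ⟨j, hj⟩) ≠ 0 := by
      rw [hσ ⟨j, hj⟩]
      exact hc
    have key : bb M1 1 15 (2 ^ ((σ ⟨j, hj⟩ : Fin 6) : ℕ)) = false := by
      cases h2 : k2.testBit (σ ⟨j, hj⟩) with
      | true =>
        have := h.c2 _ h2
        simp only [DU, Prod.mk.injEq] at this
        exact this.2
      | false =>
        cases h1 : k1.testBit (σ ⟨j, hj⟩) with
        | true =>
          rcases h.c1 _ h1 with this | ⟨_, this⟩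
          · simp only [DU, Prod.mk.injEq] at this
            exact this.2
          · simp only [DU, Prod.mk.injEq] at this
            exact this.2
        | false =>
          exfalso
          apply hcj
          unfold cf
          simp [h1, h2]
    rw [key] at e
    exact e
  · intro j hj hc hc3
    have e := v3 0 ⟨j, hj⟩
    have hcj : cf k1 k2 (σ ⟨j, hj⟩) = cls ⟨ty, b, g, a, m⟩ j := hσ ⟨j, hj⟩
    have key : bb M1 0 15 (2 ^ ((σ ⟨j, hj⟩ : Fin 6) : ℕ)) = false := by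
      cases h2 : k2.testBit (σ ⟨j, hj⟩) with
      | true =>
        have := h.c2 _ h2
        simp only [DU, Prod.mk.injEq] at this
        exact this.1
      | false =>
        cases h1 : k1.testBit (σ ⟨j, hj⟩) with
        | true =>
          have h3 : cls ⟨ty, b, g, a, m⟩ j = 3 := by
            rw [← hcj]
            unfold cf
            simp [h1, h2]
          rcases hc3 with ht | ht
          · rcases h.c1 _ h1 with this | ⟨this, _⟩
            · simp only [DU, Prod.mk.injEq] at this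
              exact this.1
            · rw [show ty = true from ht] at this
              exact absurd this (by decide)
          · exact absurd h3 ht
        | false =>
          exfalso
          apply hc
          rw [← hcj]
          unfold cf
          simp [h1, h2]
    rw [key] at e
    exact e

end Pool.Agent.K7.H9.CDM
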